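import Mathlib

/-!
# Orthonormal frames along a sequence of isomorphisms
-/

set_option autoImplicit false

namespace Pool.Agent.Run7.h232.PR

open InnerProductSpace Finset

variable {k : ℕ}

lemma inner_gs_pos (f : Fin k → EuclideanSpace ℝ (Fin k)) (h₀ : LinearIndependent ℝ f) (i : Fin k) :
    0 < inner ℝ (gramSchmidtNormed ℝ f i) (f i) := by
  have h1 : inner ℝ (gramSchmidt ℝ f i) (f i) = ‖gramSchmidt ℝ f i‖ ^ 2 := by
    conv_lhs => rw [gramSchmidt_def'' ℝ f i]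
    rw [inner_add_right, inner_sum, real_inner_self_eq_norm_sq]
    have : ∀ j ∈ Iio i, inner ℝ (gramSchmidt ℝ f i)
        ((inner ℝ (gramSchmidt ℝ f j) (f i) / ((‖gramSchmidt ℝ f j‖ : ℝ)) ^ 2) • gramSchmidt ℝ f j) = 0 := by
      intro j hj
      rw [inner_smul_right, gramSchmidt_orthogonal ℝ f (ne_of_gt (mem_Iio.1 hj)), mul_zero]
    rw [add_eq_left]
    exact sum_eq_zero this
  have h2 : gramSchmidt ℝ f i ≠ 0 := gramSchmidt_ne_zero i h₀
  have h3 : 0 < ‖gramSchmidt ℝ f i‖ := norm_pos_iff.2 h2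
  have h4 : inner ℝ (gramSchmidtNormed ℝ f i) (f i) = ‖gramSchmidt ℝ f i‖⁻¹ * inner ℝ (gramSchmidt ℝ f i) (f i) := by
    unfold gramSchmidtNormed
    rw [real_inner_smul_left]
    rfl
  rw [h4, h1]
  positivity

lemma qr_step (B : EuclideanSpace ℝ (Fin k) →L[ℝ] EuclideanSpace ℝ (Fin k)) (hB : Function.Injective B) :
    ∃ E R : EuclideanSpace ℝ (Fin k) →L[ℝ] EuclideanSpace ℝ (Fin k), (∀ v, ‖E v‖ = ‖v‖) ∧
      (∀ i j : Fin k, j < i → R (EuclideanSpace.single j 1) i = 0) ∧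
      (∀ i, 0 < R (EuclideanSpace.single i 1) i) ∧ ∀ v, B v = E (R v) := by
  set f : Fin k → EuclideanSpace ℝ (Fin k) := fun j => B (EuclideanSpace.single j 1) with hf
  have h₀ : LinearIndependent ℝ f := by
    have h1 : LinearIndependent ℝ (fun j : Fin k => (EuclideanSpace.single j (1 : ℝ) : EuclideanSpace ℝ (Fin k))) := by
      have h2 := (EuclideanSpace.basisFun (Fin k) ℝ).orthonormal.linearIndependent
      have h3 : (fun j : Fin k => (EuclideanSpace.single j (1 : ℝ) : EuclideanSpace ℝ (Fin k))) =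
          ⇑(EuclideanSpace.basisFun (Fin k) ℝ) := by
        funext j
        rw [EuclideanSpace.basisFun_apply]
      rw [h3]
      exact h2
    exact h1.map' (B : EuclideanSpace ℝ (Fin k) →ₗ[ℝ] EuclideanSpace ℝ (Fin k)) (LinearMap.ker_eq_bot.2 hB)
  have hcard : Module.finrank ℝ (EuclideanSpace ℝ (Fin k)) = Fintype.card (Fin k) := by simp
  let u := gramSchmidtOrthonormalBasis hcard f
  refine ⟨u.repr.symm.toContinuousLinearEquiv.toContinuousLinearMap,
    u.repr.toContinuousLinearEquiv.toContinuousLinearMap ∘L B, ?_, ?_, ?_, ?_⟩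
  · intro v
    exact u.repr.symm.norm_map v
  · intro i j hij
    change u.repr (f j) i = 0
    rw [OrthonormalBasis.repr_apply_apply]
    exact gramSchmidtOrthonormalBasis_inv_triangular hcard f hij
  · intro i
    change 0 < u.repr (f i) i
    rw [OrthonormalBasis.repr_apply_apply]
    have hne : gramSchmidtNormed ℝ f i ≠ 0 := by
      intro h
      have := gramSchmidtNormed_unit_length (𝕜 := ℝ) i h₀
      rw [h, norm_zero] at this
      exact zero_ne_one this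
    have : u i = gramSchmidtNormed ℝ f i := gramSchmidtOrthonormalBasis_apply hcard hne
    rw [this]
    exact inner_gs_pos f h₀ i
  · intro v
    exact (u.repr.symm_apply_apply (B v)).symm

lemma qr_seq (A : ℕ → (EuclideanSpace ℝ (Fin k) ≃L[ℝ] EuclideanSpace ℝ (Fin k))) :
    ∃ E R : ℕ → (EuclideanSpace ℝ (Fin k) →L[ℝ] EuclideanSpace ℝ (Fin k)), (∀ t v, ‖E t v‖ = ‖v‖) ∧
      (∀ t, ∀ i j : Fin k, j < i → R t (EuclideanSpace.single j 1) i = 0) ∧
      (∀ t i, 0 < R t (EuclideanSpace.single i 1) i) ∧ ∀ t v, A t (E t v) = E (t + 1) (R t v) := by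
  have hinj : ∀ (t : ℕ) (E : EuclideanSpace ℝ (Fin k) →L[ℝ] EuclideanSpace ℝ (Fin k)), (∀ v, ‖E v‖ = ‖v‖) →
      Function.Injective ((A t : EuclideanSpace ℝ (Fin k) →L[ℝ] EuclideanSpace ℝ (Fin k)) ∘L E) := by
    intro t E hE v w hvw
    have h1 : E v = E w := (A t).injective hvw
    have h2 : ‖v - w‖ = 0 := by
      rw [← hE, map_sub, h1, sub_self, norm_zero]
    exact sub_eq_zero.1 (norm_eq_zero.1 h2)
  have step : ∀ (t : ℕ) (E : {E : EuclideanSpace ℝ (Fin k) →L[ℝ] EuclideanSpace ℝ (Fin k) // ∀ v, ‖E v‖ = ‖v‖}),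
      ∃ (E' : {E : EuclideanSpace ℝ (Fin k) →L[ℝ] EuclideanSpace ℝ (Fin k) // ∀ v, ‖E v‖ = ‖v‖})
        (R : EuclideanSpace ℝ (Fin k) →L[ℝ] EuclideanSpace ℝ (Fin k)),
        (∀ i j : Fin k, j < i → R (EuclideanSpace.single j 1) i = 0) ∧
        (∀ i, 0 < R (EuclideanSpace.single i 1) i) ∧ ∀ v, A t (E.1 v) = E'.1 (R v) := by
    intro t E
    obtain ⟨E', R, h1, h2, h3, h4⟩ := qr_step _ (hinj t E.1 E.2)
    exact ⟨⟨E', h1⟩, R, h2, h3, h4⟩
  choose nxt Rf h1 h2 h3 using step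
  let Es : ℕ → {E : EuclideanSpace ℝ (Fin k) →L[ℝ] EuclideanSpace ℝ (Fin k) // ∀ v, ‖E v‖ = ‖v‖} :=
    fun t => Nat.rec ⟨ContinuousLinearMap.id ℝ _, fun v => rfl⟩ (fun t E => nxt t E) t
  exact ⟨fun t => (Es t).1, fun t => Rf t (Es t), fun t => (Es t).2, fun t => h1 t (Es t), fun t => h2 t (Es t),
    fun t => h3 t (Es t)⟩

end Pool.Agent.Run7.h232.PR
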