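import Pool.Agent.Run7.h232.PR.TriA

/-!
# Triangular systems
-/

set_option autoImplicit false

namespace Pool.Agent.Run7.h232.PR

open Real Finset

section

variable {k : ℕ}

/-- The hypotheses on the window of radius `N` around `t`. -/
structure Win (Λ κ C ρ : ℝ) (N : ℕ) (R : ℕ → (EuclideanSpace ℝ (Fin k) →L[ℝ] EuclideanSpace ℝ (Fin k)))
    (s : Fin k → ℕ → ℝ) (c : ℕ → EuclideanSpace ℝ (Fin k)) (t : ℕ) (m : ℝ) : Prop where
  nn : 0 ≤ m
  le : N ≤ t
  bd : ∀ u, ‖R u‖ ≤ Λ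
  ut : ∀ u, ∀ i j : Fin k, j < i → R u (EuclideanSpace.single j 1) i = 0
  dg : ∀ u i, R u (EuclideanSpace.single i 1) i = exp (s i (u + 1) - s i u)
  gr : ∀ i, (∀ a b : ℕ, t ≤ a + N → a ≤ b → b ≤ t + N → κ * ((b : ℝ) - a) - C ≤ s i b - s i a) ∨
    (∀ a b : ℕ, t ≤ a + N → a ≤ b → b ≤ t + N → s i b - s i a ≤ C - κ * ((b : ℝ) - a))
  rc : ∀ u, t ≤ u + N → u < t + N → c (u + 1) = R u (c u)
  sz : ∀ u, t ≤ u + N → u ≤ t + N → ‖c u‖ ≤ ρ * m

lemma Win.mono {Λ κ C ρ : ℝ} {N : ℕ} {R : ℕ → (EuclideanSpace ℝ (Fin k) →L[ℝ] EuclideanSpace ℝ (Fin k))}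
    {s : Fin k → ℕ → ℝ} {c : ℕ → EuclideanSpace ℝ (Fin k)} {t : ℕ} {m : ℝ} (h : Win Λ κ C ρ N R s c t m)
    {N' t' : ℕ} (h1 : t ≤ t' + N - N') (h1' : N' ≤ N) (h2 : t' + N' ≤ t + N) : Win Λ κ C ρ N' R s c t' m := by
  have hle := h.le
  refine ⟨h.nn, by omega, h.bd, h.ut, h.dg, fun i => ?_, fun u hu hu' => h.rc u (by omega) (by omega),
    fun u hu hu' => h.sz u (by omega) (by omega)⟩
  rcases h.gr i with hg | hg
  · exact Or.inl fun a b h3 h4 h5 => hg a b (by omega) h4 (by omega)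
  · exact Or.inr fun a b h3 h4 h5 => hg a b (by omega) h4 (by omega)

/-- The coordinates of the image. -/
lemma coord (A : EuclideanSpace ℝ (Fin k) →L[ℝ] EuclideanSpace ℝ (Fin k)) (v : EuclideanSpace ℝ (Fin k)) (i : Fin k) :
    A v i = ∑ j, A (EuclideanSpace.single j 1) i * v j := by
  have h1 : v = ∑ j, v j • EuclideanSpace.single j (1 : ℝ) := by
    ext l
    rw [WithLp.ofLp_sum, Finset.sum_apply]
    simp
  conv_lhs => rw [h1]
  rw [map_sum, WithLp.ofLp_sum, Finset.sum_apply]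
  refine sum_congr rfl (fun j _ => ?_)
  rw [map_smul, PiLp.smul_apply, smul_eq_mul, mul_comm]

lemma abs_entry {Λ : ℝ} (A : EuclideanSpace ℝ (Fin k) →L[ℝ] EuclideanSpace ℝ (Fin k)) (h : ‖A‖ ≤ Λ) (i j : Fin k) :
    |A (EuclideanSpace.single j 1) i| ≤ Λ := by
  have h1 : ‖A (EuclideanSpace.single j 1)‖ ≤ Λ * ‖(EuclideanSpace.single j (1 : ℝ) : EuclideanSpace ℝ (Fin k))‖ :=
    A.le_of_opNorm_le h _
  have h2 : ‖(EuclideanSpace.single j (1 : ℝ) : EuclideanSpace ℝ (Fin k))‖ = 1 := by simp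
  rw [h2, mul_one] at h1
  have h3 := PiLp.norm_apply_le (A (EuclideanSpace.single j 1)) i
  rw [Real.norm_eq_abs] at h3
  linarith

lemma main (Λ κ C ρ : ℝ) (hκ : 0 < κ) : ∀ (n : ℕ) (i : Fin k), k - i.val ≤ n → ∀ η : ℝ, 0 < η → ∃ N : ℕ,
    ∀ (R : ℕ → (EuclideanSpace ℝ (Fin k) →L[ℝ] EuclideanSpace ℝ (Fin k))) (s : Fin k → ℕ → ℝ)
      (c : ℕ → EuclideanSpace ℝ (Fin k)) (t : ℕ) (m : ℝ), Win Λ κ C ρ N R s c t m → |c t i| ≤ η * m := by
  intro n
  induction n with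
  | zero => intro i hi; have := i.2; omega
  | succ n ih =>
    intro i hi η hη
    obtain ⟨h, e, he, hloc⟩ := loc hκ C ρ η hη
    set η' : ℝ := e / (k * |Λ| + 1) with hη'
    have hk : 0 < (k : ℝ) * |Λ| + 1 := by positivity
    have hη'0 : 0 < η' := by positivity
    have h1 : ∀ j : Fin k, ∃ N : ℕ, i < j →
        ∀ (R : ℕ → (EuclideanSpace ℝ (Fin k) →L[ℝ] EuclideanSpace ℝ (Fin k))) (s : Fin k → ℕ → ℝ)
          (c : ℕ → EuclideanSpace ℝ (Fin k)) (t : ℕ) (m : ℝ), Win Λ κ C ρ N R s c t m → |c t j| ≤ η' * m := by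
      intro j
      by_cases hj : i < j
      · have hj' : i.val < j.val := hj
        have := j.2
        obtain ⟨N, hN⟩ := ih j (by omega) η' hη'0
        exact ⟨N, fun _ => hN⟩
      · exact ⟨0, fun h => absurd h hj⟩
    choose Nf hNf using h1
    refine ⟨h + ∑ j, Nf j, ?_⟩
    intro R s c t m hW
    have hm := hW.nn
    have hle := hW.le
    have hNle : ∀ j, Nf j ≤ ∑ j, Nf j := fun j => single_le_sum (f := Nf) (fun _ _ => Nat.zero_le _) (mem_univ j)
    have hsmall : ∀ j, i < j → ∀ u, t ≤ u + h → u ≤ t + h → |c u j| ≤ η' * m := by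
      intro j hj u hu hu'
      refine hNf j hj R s c u m (hW.mono ?_ ?_ ?_)
      · have := hNle j; omega
      · have := hNle j; omega
      · have := hNle j; omega
    refine hloc (fun u => c u i) (fun u => c (u + 1) i - exp (s i (u + 1) - s i u) * c u i) (s i) t m hm (by omega)
      ?_ ?_ ?_ ?_
    · intro u hu hu'
      have h2 := hW.sz u (by omega) (by omega)
      have h3 := PiLp.norm_apply_le (c u) i
      rw [Real.norm_eq_abs] at h3
      exact h3.trans h2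
    · intro u hu hu'
      have h2 := hW.rc u (by omega) (by omega)
      have h3 : c (u + 1) i - exp (s i (u + 1) - s i u) * c u i =
          ∑ j ∈ univ.erase i, R u (EuclideanSpace.single j 1) i * c u j := by
        rw [h2, coord, ← hW.dg u i, ← add_sum_erase univ _ (mem_univ i)]
        ring
      change |c (u + 1) i - exp (s i (u + 1) - s i u) * c u i| ≤ e * m
      rw [h3]
      refine (abs_sum_le_sum_abs _ _).trans ?_
      have h4 : ∀ j ∈ univ.erase i, |R u (EuclideanSpace.single j 1) i * c u j| ≤ |Λ| * (η' * m) := by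
        intro j hj
        have hji : j ≠ i := (mem_erase.1 hj).1
        rw [abs_mul]
        rcases lt_or_gt_of_ne hji with hlt | hgt
        · rw [hW.ut u i j hlt, abs_zero, zero_mul]
          positivity
        · refine mul_le_mul ((abs_entry (R u) (hW.bd u) i j).trans (le_abs_self Λ)) (hsmall j hgt u hu (by omega))
            (abs_nonneg _) (abs_nonneg _)
      refine (sum_le_sum h4).trans ?_
      rw [sum_const, nsmul_eq_mul]
      have h5 : (((univ.erase i : Finset (Fin k)).card : ℕ) : ℝ) ≤ k := by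
        have := card_le_univ (univ.erase i : Finset (Fin k))
        rw [Fintype.card_fin] at this
        exact_mod_cast this
      calc (((univ.erase i : Finset (Fin k)).card : ℕ) : ℝ) * (|Λ| * (η' * m)) ≤ k * (|Λ| * (η' * m)) :=
            mul_le_mul_of_nonneg_right h5 (by positivity)
        _ = k * |Λ| * η' * m := by ring
        _ ≤ (k * |Λ| + 1) * η' * m := by
            have : 0 ≤ η' * m := by positivity
            nlinarith
        _ = e * m := by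
            rw [hη']
            field_simp
    · intro u _ _
      ring
    · rcases hW.gr i with hg | hg
      · exact Or.inl fun a b h3 h4 h5 => hg a b (by omega) h4 (by omega)
      · exact Or.inr fun a b h3 h4 h5 => hg a b (by omega) h4 (by omega)

lemma final (Λ κ C ρ : ℝ) (hκ : 0 < κ) : ∃ N : ℕ,
    ∀ (R : ℕ → (EuclideanSpace ℝ (Fin k) →L[ℝ] EuclideanSpace ℝ (Fin k))) (s : Fin k → ℕ → ℝ)
      (c : ℕ → EuclideanSpace ℝ (Fin k)) (t : ℕ), ¬ (0 < ‖c t‖ ∧ Win Λ κ C ρ N R s c t ‖c t‖) := by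
  have h1 : ∀ i : Fin k, ∃ N : ℕ, ∀ (R : ℕ → (EuclideanSpace ℝ (Fin k) →L[ℝ] EuclideanSpace ℝ (Fin k)))
      (s : Fin k → ℕ → ℝ) (c : ℕ → EuclideanSpace ℝ (Fin k)) (t : ℕ) (m : ℝ), Win Λ κ C ρ N R s c t m →
      |c t i| ≤ 1 / ((k : ℝ) + 1) * m := fun i => main Λ κ C ρ hκ (k - i.val) i le_rfl _ (by positivity)
  choose Nf hNf using h1
  refine ⟨∑ j, Nf j, ?_⟩
  rintro R s c t ⟨hm, hW⟩
  have hle := hW.le
  have h2 : ∀ i, |c t i| ≤ 1 / ((k : ℝ) + 1) * ‖c t‖ := by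
    intro i
    have hNle : Nf i ≤ ∑ j, Nf j := single_le_sum (f := Nf) (fun _ _ => Nat.zero_le _) (mem_univ i)
    exact hNf i R s c t ‖c t‖ (hW.mono (by omega) hNle (by omega))
  have h3 : ‖c t‖ ^ 2 ≤ k * (1 / ((k : ℝ) + 1) * ‖c t‖) ^ 2 := by
    rw [EuclideanSpace.norm_sq_eq]
    have h4 : ∀ i ∈ (univ : Finset (Fin k)), ‖c t i‖ ^ 2 ≤ (1 / ((k : ℝ) + 1) * ‖c t‖) ^ 2 := by
      intro i _
      rw [Real.norm_eq_abs]
      exact pow_le_pow_left₀ (abs_nonneg _) (h2 i) 2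
    refine (sum_le_sum h4).trans ?_
    rw [sum_const, nsmul_eq_mul, card_univ, Fintype.card_fin]
  have hk : (0 : ℝ) ≤ k := Nat.cast_nonneg k
  have h5 : (k : ℝ) * (1 / ((k : ℝ) + 1) * ‖c t‖) ^ 2 = k / ((k : ℝ) + 1) ^ 2 * ‖c t‖ ^ 2 := by
    field_simp
  have h6 : (k : ℝ) / ((k : ℝ) + 1) ^ 2 < 1 := by
    rw [div_lt_one (by positivity)]
    nlinarith
  rw [h5] at h3
  have h7 : 0 < ‖c t‖ ^ 2 := by positivity
  nlinarith

end

end Pool.Agent.Run7.h232.PR
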