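import Pool.Agent.Run7.h619.PR.Iface
import Pool.Agent.Run7.h232.PR.TriB
import Pool.Agent.Run7.h232.PR.QrA

/-!
# The pieces TRI and QR
-/

set_option autoImplicit false

namespace Pool.Agent.Run7.h232.PR

open Run7.h619.PR Pool.Agent.H718R2.G

theorem t_QR : S_QR := by
  intro k A
  obtain ⟨E, R, h1, h2, h3, h4⟩ := qr_seq A
  exact ⟨E, R, h1, h2, h3, h4⟩

theorem t_TRI : S_TRI := by
  intro k Λ κ C ρ hκ
  obtain ⟨N, hN⟩ := final (k := k) Λ κ C ρ hκ
  refine ⟨N, ?_⟩
  intro R s t₁ t₂ t₀ c hb hut hdg hs hrec h1 h2 hc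
  by_contra hcon
  push Not at hcon
  refine hN R s c t₀ ⟨norm_pos_iff.2 hc, ?_⟩
  refine ⟨norm_nonneg _, by omega, hb, hut, hdg, fun i => ?_, fun u hu hu' => hrec u (by omega) (by omega),
    fun u hu hu' => (hcon u hu hu').le⟩
  rcases hs i with h | h
  · exact Or.inl fun a b ha hab hb' => h a b (by omega) hab (by omega)
  · exact Or.inr fun a b ha hab hb' => h a b (by omega) hab (by omega)

end Pool.Agent.Run7.h232.PR
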