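import Mathlib

/-!
# Scalar recursions with uniformly contracting or expanding factors
-/

set_option autoImplicit false

namespace Pool.Agent.Run7.h232.PR

open Real Finset

lemma geo_le {q : ℝ} (h0 : 0 ≤ q) (h1 : q < 1) (n : ℕ) : ∑ u ∈ range n, q ^ u ≤ 1 / (1 - q) := by
  have h2 : 0 < 1 - q := by linarith
  rw [le_div_iff₀ h2, mul_comm, mul_neg_geom_sum]
  have := pow_nonneg h0 n
  linarith

/-- The contracting case. -/
lemma contr {κ C e : ℝ} (hκ : 0 < κ) (he : 0 ≤ e) (x r s : ℕ → ℝ) (a n : ℕ)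
    (hx : ∀ u, a ≤ u → u < a + n → x (u + 1) = exp (s (u + 1) - s u) * x u + r u)
    (hr : ∀ u, a ≤ u → u < a + n → |r u| ≤ e)
    (hs : ∀ u b : ℕ, a ≤ u → u ≤ b → b ≤ a + n → s b - s u ≤ C - κ * ((b : ℝ) - u)) :
    |x (a + n)| ≤ exp (C - κ * n) * |x a| + e * (exp C * (1 / (1 - exp (-κ)))) := by
  have key : ∀ d, d ≤ n → |x (a + d)| ≤ exp (s (a + d) - s a) * |x a| +
      e * ∑ u ∈ range d, exp (s (a + d) - s (a + u + 1)) := by
    intro d
    induction d with
    | zero => intro _; simp
    | succ d ih =>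
      intro hd
      have h1 := ih (by omega)
      have h2 := hx (a + d) (by omega) (by omega)
      have h3 := hr (a + d) (by omega) (by omega)
      have e1 : x (a + (d + 1)) = exp (s (a + (d + 1)) - s (a + d)) * x (a + d) + r (a + d) := h2
      rw [e1]
      have h4 : |exp (s (a + (d + 1)) - s (a + d)) * x (a + d) + r (a + d)| ≤
          exp (s (a + (d + 1)) - s (a + d)) * |x (a + d)| + e := by
        refine (abs_add_le _ _).trans ?_
        rw [abs_mul, abs_of_pos (exp_pos _)]
        linarith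
      refine h4.trans ?_
      have h5 := mul_le_mul_of_nonneg_left h1 (exp_pos (s (a + (d + 1)) - s (a + d))).le
      have e2 : exp (s (a + (d + 1)) - s (a + d)) * (exp (s (a + d) - s a) * |x a| +
          e * ∑ u ∈ range d, exp (s (a + d) - s (a + u + 1))) =
          exp (s (a + (d + 1)) - s a) * |x a| + e * ∑ u ∈ range d, exp (s (a + (d + 1)) - s (a + u + 1)) := by
        rw [mul_add, ← mul_assoc, ← exp_add]
        congr 1
        · congr 2
          ring
        · rw [← mul_assoc, mul_comm _ e, mul_assoc, mul_sum]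
          congr 1
          refine sum_congr rfl (fun u _ => ?_)
          rw [← exp_add]
          congr 1
          ring
      rw [e2] at h5
      rw [sum_range_succ]
      have e3 : exp (s (a + (d + 1)) - s (a + d + 1)) = 1 := by
        rw [show a + (d + 1) = a + d + 1 from rfl, sub_self, exp_zero]
      rw [e3, mul_add, mul_one]
      linarith
  have h1 := key n le_rfl
  have h2 : exp (s (a + n) - s a) ≤ exp (C - κ * n) := by
    apply exp_le_exp.2
    have := hs a (a + n) le_rfl (by omega) le_rfl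
    push_cast at this
    linarith
  have h3 : ∑ u ∈ range n, exp (s (a + n) - s (a + u + 1)) ≤ exp C * (1 / (1 - exp (-κ))) := by
    have hq0 : (0 : ℝ) ≤ exp (-κ) := (exp_pos _).le
    have hq1 : exp (-κ) < 1 := by rw [exp_lt_one_iff]; linarith
    have h4 : ∀ u ∈ range n, exp (s (a + n) - s (a + u + 1)) ≤ exp C * exp (-κ) ^ (n - 1 - u) := by
      intro u hu
      rw [mem_range] at hu
      rw [← exp_nat_mul, ← exp_add]
      apply exp_le_exp.2
      have := hs (a + u + 1) (a + n) (by omega) (by omega) le_rfl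
      have hc : ((n - 1 - u : ℕ) : ℝ) = (n : ℝ) - 1 - u := by
        rw [Nat.cast_sub (by omega), Nat.cast_sub (by omega), Nat.cast_one]
      rw [hc]
      push_cast at this
      linarith
    refine (sum_le_sum h4).trans ?_
    rw [← mul_sum]
    refine mul_le_mul_of_nonneg_left ?_ (exp_pos C).le
    rw [sum_range_reflect (fun u => exp (-κ) ^ u) n]
    exact geo_le hq0 hq1 n
  have h5 := mul_le_mul_of_nonneg_right h2 (abs_nonneg (x a))
  have h6 := mul_le_mul_of_nonneg_left h3 he
  linarith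

/-- The expanding case. -/
lemma expa {κ C e : ℝ} (hκ : 0 < κ) (he : 0 ≤ e) (x r s : ℕ → ℝ) (a n : ℕ)
    (hx : ∀ u, a ≤ u → u < a + n → x (u + 1) = exp (s (u + 1) - s u) * x u + r u)
    (hr : ∀ u, a ≤ u → u < a + n → |r u| ≤ e)
    (hs : ∀ u b : ℕ, a ≤ u → u ≤ b → b ≤ a + n → κ * ((b : ℝ) - u) - C ≤ s b - s u) :
    |x a| ≤ exp (C - κ * n) * |x (a + n)| + e * (exp C * (1 / (1 - exp (-κ)))) := by
  have key : ∀ d, d ≤ n → |x a| ≤ exp (s a - s (a + d)) * |x (a + d)| +
      e * ∑ u ∈ range d, exp (s a - s (a + u + 1)) := by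
    intro d
    induction d with
    | zero => intro _; simp
    | succ d ih =>
      intro hd
      have h1 := ih (by omega)
      have h2 := hx (a + d) (by omega) (by omega)
      have h3 := hr (a + d) (by omega) (by omega)
      have e1 : x (a + d) = exp (s (a + d) - s (a + d + 1)) * (x (a + d + 1) - r (a + d)) := by
        rw [h2, add_sub_cancel_right, ← mul_assoc, ← exp_add]
        rw [show s (a + d) - s (a + d + 1) + (s (a + d + 1) - s (a + d)) = 0 by ring, exp_zero, one_mul]
      have h4 : |x (a + d)| ≤ exp (s (a + d) - s (a + d + 1)) * (|x (a + d + 1)| + e) := by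
        rw [e1, abs_mul, abs_of_pos (exp_pos _)]
        refine mul_le_mul_of_nonneg_left ?_ (exp_pos _).le
        have := abs_sub (x (a + d + 1)) (r (a + d))
        linarith
      have h5 := mul_le_mul_of_nonneg_left h4 (exp_pos (s a - s (a + d))).le
      have e2 : exp (s a - s (a + d)) * (exp (s (a + d) - s (a + d + 1)) * (|x (a + d + 1)| + e)) =
          exp (s a - s (a + d + 1)) * |x (a + d + 1)| + e * exp (s a - s (a + d + 1)) := by
        rw [← mul_assoc, ← exp_add, show s a - s (a + d) + (s (a + d) - s (a + d + 1)) = s a - s (a + d + 1) by ring]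
        ring
      rw [e2] at h5
      rw [sum_range_succ, mul_add]
      rw [show a + (d + 1) = a + d + 1 from rfl]
      linarith
  have h1 := key n le_rfl
  have h2 : exp (s a - s (a + n)) ≤ exp (C - κ * n) := by
    apply exp_le_exp.2
    have := hs a (a + n) le_rfl (by omega) le_rfl
    push_cast at this
    linarith
  have h3 : ∑ u ∈ range n, exp (s a - s (a + u + 1)) ≤ exp C * (1 / (1 - exp (-κ))) := by
    have hq0 : (0 : ℝ) ≤ exp (-κ) := (exp_pos _).le
    have hq1 : exp (-κ) < 1 := by rw [exp_lt_one_iff]; linarith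
    have h4 : ∀ u ∈ range n, exp (s a - s (a + u + 1)) ≤ exp C * exp (-κ) ^ u := by
      intro u hu
      rw [mem_range] at hu
      rw [← exp_nat_mul, ← exp_add]
      apply exp_le_exp.2
      have := hs a (a + u + 1) le_rfl (by omega) (by omega)
      push_cast at this
      linarith
    refine (sum_le_sum h4).trans ?_
    rw [← mul_sum]
    exact mul_le_mul_of_nonneg_left (geo_le hq0 hq1 n) (exp_pos C).le
  have h5 := mul_le_mul_of_nonneg_right h2 (abs_nonneg (x (a + n)))
  have h6 := mul_le_mul_of_nonneg_left h3 he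
  linarith

/-- Large windows. -/
lemma exists_win {κ : ℝ} (hκ : 0 < κ) (C ρ η : ℝ) (hη : 0 < η) : ∃ h : ℕ, exp (C - κ * h) * |ρ| ≤ η := by
  obtain ⟨h, hh⟩ := exists_nat_gt ((C - Real.log (η / (|ρ| + 1))) / κ)
  refine ⟨h, ?_⟩
  have h1 : 0 < |ρ| + 1 := by positivity
  have h2 : 0 < η / (|ρ| + 1) := by positivity
  have h3 : C - κ * h ≤ Real.log (η / (|ρ| + 1)) := by
    rw [div_lt_iff₀ hκ] at hh
    linarith
  have h4 : exp (C - κ * h) ≤ η / (|ρ| + 1) := by
    calc exp (C - κ * h) ≤ exp (Real.log (η / (|ρ| + 1))) := exp_le_exp.2 h3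
      _ = η / (|ρ| + 1) := exp_log h2
  calc exp (C - κ * h) * |ρ| ≤ η / (|ρ| + 1) * (|ρ| + 1) := by
        apply mul_le_mul h4 (by linarith) (abs_nonneg _) h2.le
    _ = η := by field_simp

/-- The local lemma. -/
lemma loc {κ : ℝ} (hκ : 0 < κ) (C ρ η : ℝ) (hη : 0 < η) : ∃ (h : ℕ) (e : ℝ), 0 < e ∧
    ∀ (x r s : ℕ → ℝ) (t : ℕ) (m : ℝ), 0 ≤ m → h ≤ t →
      (∀ u, t ≤ u + h → u ≤ t + h → |x u| ≤ ρ * m) →
      (∀ u, t ≤ u + h → u < t + h → |r u| ≤ e * m) →
      (∀ u, t ≤ u + h → u < t + h → x (u + 1) = exp (s (u + 1) - s u) * x u + r u) →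
      ((∀ a b : ℕ, t ≤ a + h → a ≤ b → b ≤ t + h → κ * ((b : ℝ) - a) - C ≤ s b - s a) ∨
        (∀ a b : ℕ, t ≤ a + h → a ≤ b → b ≤ t + h → s b - s a ≤ C - κ * ((b : ℝ) - a))) →
      |x t| ≤ η * m := by
  obtain ⟨h, hh⟩ := exists_win hκ C ρ (η / 2) (by linarith)
  have hq1 : exp (-κ) < 1 := by rw [exp_lt_one_iff]; linarith
  set D : ℝ := exp C * (1 / (1 - exp (-κ))) with hD
  have hD0 : 0 < D := by
    have : 0 < 1 - exp (-κ) := by linarith
    positivity
  refine ⟨h, η / (2 * D), by positivity, ?_⟩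
  intro x r s t m hm ht hx hr hrec hs
  have he : 0 ≤ η / (2 * D) * m := by positivity
  have e1 : η / (2 * D) * m * D = η / 2 * m := by
    field_simp
  have hρm : ∀ u, t ≤ u + h → u ≤ t + h → |x u| ≤ |ρ| * m := fun u h1 h2 =>
    (hx u h1 h2).trans (mul_le_mul_of_nonneg_right (le_abs_self ρ) hm)
  have hfin : ∀ y : ℝ, |y| ≤ |ρ| * m → exp (C - κ * h) * |y| ≤ η / 2 * m := by
    intro y hy
    calc exp (C - κ * h) * |y| ≤ exp (C - κ * h) * (|ρ| * m) := mul_le_mul_of_nonneg_left hy (exp_pos _).le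
      _ = exp (C - κ * h) * |ρ| * m := by ring
      _ ≤ η / 2 * m := mul_le_mul_of_nonneg_right hh hm
  rcases hs with hs | hs
  · have h1 := expa hκ he x r s t h (fun u h1 h2 => hrec u (by omega) h2) (fun u h1 h2 => hr u (by omega) h2)
      (fun u b h1 h2 h3 => hs u b (by omega) h2 h3)
    have h2 := hfin (x (t + h)) (hρm (t + h) (by omega) (by omega))
    rw [← hD, e1] at h1
    linarith
  · obtain ⟨a, rfl⟩ : ∃ a, t = a + h := ⟨t - h, by omega⟩
    have h1 := contr hκ he x r s a h (fun u h1 h2 => hrec u (by omega) (by omega))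
      (fun u h1 h2 => hr u (by omega) (by omega)) (fun u b h1 h2 h3 => hs u b (by omega) h2 (by omega))
    have h2 := hfin (x a) (hρm a (by omega) (by omega))
    rw [← hD, e1] at h1
    linarith

end Pool.Agent.Run7.h232.PR
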